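import Mathlib
import Pool.Agent.X215.BI.A

/-!
# No barely independent family over `ω₁` or over `𝔠 = ω₂`

If `𝔠 = ω₂` and `𝔯 ≤ ω₁ < 𝔰`, then there is no barely independent family over `ω₁` and none over `𝔠`:
with `A_n` (`n < ω`) in a barely independent family over `λ` and `x_α = {n : α ∈ A_n}`, every infinite
subset of `ω` is split by all but fewer than `λ` many `x_α`. For `λ = ω₁` this gives `𝔰 ≤ ω₁`, for
`λ = 𝔠 = ω₂` it gives `𝔯 ≥ ω₂`.
-/

set_option autoImplicit false

namespace Pool.Agent.Results.MP_e8be47_lc.NeitherExists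

open Pool.Agent.X215.BI
open scoped Cardinal

/-- If `𝔠 = ℵ₂`, `𝔯 ≤ ℵ₁` and `ℵ₁ < 𝔰`, then there is neither a barely independent family over `ω₁`
nor one over `𝔠`. -/
theorem result (hc : 𝔠 = Cardinal.aleph.{0} 2) (hr : reaping ≤ Cardinal.aleph 1)
    (hs : Cardinal.aleph 1 < splitting) :
    (¬ ∃ (L : Type) (I : Set (Set L)), #L = Cardinal.aleph 1 ∧ BarelyIndependent L I) ∧
    (¬ ∃ (L : Type) (I : Set (Set L)), #L = 𝔠 ∧ BarelyIndependent L I) := by
  constructor
  · rintro ⟨L, I, hL, hI⟩
    have h1 : splitting ≤ #L := by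
      refine splitting_le ?_ ?_ hI
      · rw [hL]
        exact Cardinal.isRegular_aleph_one
      · rw [hL]
        exact Cardinal.aleph0_lt_aleph_one
    rw [hL] at h1
    exact absurd h1 (not_le.2 hs)
  · rintro ⟨L, I, hL, hI⟩
    have h2 : (2 : Ordinal.{0}) = Order.succ 1 := by
      rw [Order.succ_eq_add_one, one_add_one_eq_two]
    have h1 : #L ≤ reaping := by
      refine le_reaping ?_ ?_ hI
      · rw [hL, hc, h2]
        exact Cardinal.isRegular_aleph_succ 1
      · rw [hL]
        exact Cardinal.aleph0_lt_continuum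
    rw [hL, hc] at h1
    refine absurd (h1.trans hr) (not_le.2 ?_)
    rw [Cardinal.aleph_lt_aleph, h2]
    exact Order.lt_succ 1

end Pool.Agent.Results.MP_e8be47_lc.NeitherExists
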